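import Pool.Agent.Lib_helper66.OneP.Main

/-!
Injectivity of the cycle class map on a smooth proper variety does not depend on the prime.
-/

set_option autoImplicit false

open CategoryTheory AlgebraicGeometry Polynomial TopologicalSpace

namespace Pool.Agent.Lib_helper66.OneP

open Pool.Agent.Lib_helper55.Beil

universe v w

variable {k : Type} [Field k] {i : ℕ}

/-- extension of the coefficients of a cycle -/
noncomputable def ext (E : Type) [Field E] [CharZero E] {P : Type} (c : P →₀ ℚ) : P →₀ E :=
  c.mapRange (algebraMap ℚ E) (map_zero _)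

section

variable (E : Type) [Field E] [CharZero E] {P : Type}

lemma ext_apply (c : P →₀ ℚ) (x : P) : ext E c x = algebraMap ℚ E (c x) := rfl

lemma ext_injective : Function.Injective (ext E : (P →₀ ℚ) → (P →₀ E)) := by
  intro c d h
  ext x
  exact (algebraMap ℚ E).injective (DFunLike.congr_fun h x)

/-- a rational vector in the span of rational vectors over `E` is in the rational span -/
lemma mem_span_descend (S : Set (P →₀ ℚ)) (c : P →₀ ℚ)
    (h : ext E c ∈ Submodule.span E (ext E '' S)) : c ∈ Submodule.span ℚ S := by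
  obtain ⟨r, hr⟩ := (Algebra.linearMap ℚ E).exists_leftInverse_of_injective
    (LinearMap.ker_eq_bot.mpr (algebraMap ℚ E).injective)
  have hr1 : ∀ q : ℚ, r (algebraMap ℚ E q) = q := fun q =>
    congrArg (fun f : ℚ →ₗ[ℚ] ℚ => f q) hr
  have key : ∀ d ∈ Submodule.span E (ext E '' S), ∀ t : E,
      (t • d).mapRange r (map_zero r) ∈ Submodule.span ℚ S := by
    intro d hd
    induction hd using Submodule.span_induction with
    | mem x hx =>
      obtain ⟨s, hs, rfl⟩ := hx
      intro t
      have h1 : (t • ext E s).mapRange r (map_zero r) = r t • s := by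
        ext x
        rw [Finsupp.mapRange_apply, Finsupp.smul_apply, Finsupp.smul_apply, ext_apply,
          smul_eq_mul, smul_eq_mul, mul_comm t, ← Algebra.smul_def, map_smul, smul_eq_mul, mul_comm]
      rw [h1]
      exact Submodule.smul_mem _ _ (Submodule.subset_span hs)
    | zero => intro t; simp
    | add x y _ _ hx hy =>
      intro t
      rw [smul_add, Finsupp.mapRange_add (map_add r)]
      exact add_mem (hx t) (hy t)
    | smul a x _ hx =>
      intro t
      rw [smul_smul]
      exact hx (t * a)
  have h2 := key _ h 1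
  have h3 : ((1 : E) • ext E c).mapRange r (map_zero r) = c := by
    ext x
    rw [one_smul, Finsupp.mapRange_apply, ext_apply, hr1]
  rwa [h3] at h2

end

/-- cycles which are divisors have rational (integral) coefficients -/
lemma isDiv_descend {E : Type} [Field E] [CharZero E] {W X : Var k} (a : ClosedIn W X)
    [IsIntegral W.X] (φ : W.X.functionField) (c : Pts i X →₀ E) (h : IsDiv a φ c) :
    ∃ c₀ : Pts i X →₀ ℚ, IsDiv a φ c₀ ∧ ext E c₀ = c := by
  classical
  have h1 : ∀ x : Pts i X, ∃ z : ℤ, c x = (z : E) := by
    intro x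
    by_cases hx : x.1 ∈ Set.range a.g
    · obtain ⟨x, hxi⟩ := x
      obtain ⟨w, rfl⟩ := hx
      exact ⟨_, h.1 w hxi⟩
    · exact ⟨0, by rw [h.2 x hx]; simp⟩
  choose z hz using h1
  refine ⟨Finsupp.onFinset c.support (fun x => (z x : ℚ)) ?_, ⟨?_, ?_⟩, ?_⟩
  · intro x hx
    rw [Finsupp.mem_support_iff, hz]
    exact_mod_cast hx
  · intro w hw
    have h2 := h.1 w hw
    rw [hz] at h2
    have h3 : z ⟨a.g w, hw⟩ = (Scheme.ord φ w : ℤ) := by exact_mod_cast h2
    rw [Finsupp.onFinset_apply, h3]
  · intro x hx
    have h2 := h.2 x hx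
    rw [hz] at h2
    have h3 : z x = 0 := by exact_mod_cast h2
    rw [Finsupp.onFinset_apply, h3, Int.cast_zero]
  · ext x
    rw [ext_apply, Finsupp.onFinset_apply, hz]
    simp

lemma isDiv_ext {E : Type} [Field E] [CharZero E] {W X : Var k} (a : ClosedIn W X)
    [IsIntegral W.X] (φ : W.X.functionField) (c : Pts i X →₀ ℚ) (h : IsDiv a φ c) :
    IsDiv a φ (ext E c) := by
  constructor
  · intro w hw
    rw [ext_apply, h.1 w hw]
    simp
  · intro x hx
    rw [ext_apply, h.2 x hx, map_zero]

/-- the set of divisors -/
def divs (E : Type) [Field E] (i : ℕ) (X : Var k) : Set (Pts i X →₀ E) :=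
  {c | ∃ (W : Var k) (_ : IsIntegral W.X) (a : ClosedIn W X)
    (φ : W.X.functionField), W.dim (genericPoint W.X) = (i + 1 : ℕ) ∧ φ ≠ 0 ∧ IsDiv a φ c}

lemma divs_eq (E : Type) [Field E] [CharZero E] (X : Var k) :
    divs E i X = ext E '' divs ℚ i X := by
  ext c
  constructor
  · rintro ⟨W, hW, a, φ, h1, h2, h3⟩
    obtain ⟨c₀, h4, rfl⟩ := isDiv_descend a φ c h3
    exact ⟨c₀, ⟨W, hW, a, φ, h1, h2, h4⟩, rfl⟩
  · rintro ⟨c₀, ⟨W, hW, a, φ, h1, h2, h4⟩, rfl⟩
    exact ⟨W, hW, a, φ, h1, h2, isDiv_ext a φ c₀ h4⟩

lemma ratZero_descend (E : Type) [Field E] [CharZero E] (X : Var k) (c : Pts i X →₀ ℚ)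
    (h : ext E c ∈ ratZero E i X) : c ∈ ratZero ℚ i X := by
  apply mem_span_descend E
  have h1 : ratZero E i X = Submodule.span E (divs E i X) := rfl
  rw [h1, divs_eq] at h
  exact h

lemma ratZero_ext (E : Type) [Field E] [CharZero E] (X : Var k) (c : Pts i X →₀ ℚ)
    (h : c ∈ ratZero ℚ i X) : ext E c ∈ ratZero E i X := by
  have h1 : ratZero E i X = Submodule.span E (divs E i X) := rfl
  rw [h1, divs_eq]
  induction h using Submodule.span_induction with
  | mem x hx => exact Submodule.subset_span ⟨x, hx, rfl⟩
  | zero =>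
    have : ext E (0 : Pts i X →₀ ℚ) = 0 := by ext x; simp [ext_apply]
    rw [this]
    exact zero_mem _
  | add x y _ _ hx hy =>
    have : ext E (x + y) = ext E x + ext E y := by ext z; simp [ext_apply]
    rw [this]
    exact add_mem hx hy
  | smul a x _ hx =>
    have : ext E (a • x) = (algebraMap ℚ E a) • ext E x := by ext z; simp [ext_apply]
    rw [this]
    exact Submodule.smul_mem _ _ hx

/-- If for one theory homological and numerical equivalence agree on `Y` and the class map is
injective, then the class map is injective for every theory with the same intersection numbers. -/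
theorem inj_transfer {E E' : Type} [Field E] [Field E'] [CharZero E] [CharZero E']
    (N : Numbers k) {j : ℕ} (T : Homology.{v} k E i) (T' : Homology.{w} k E' i)
    (S' : Homology.{w} k E' j) (Y : Var k) (B' : Pairing T' S' Y) (hp : B'.Intersections N)
    (hN : HomNum N T j Y) (hI : T.Inj Y) : T'.Inj Y := by
  classical
  rw [Homology.inj_iff] at hI ⊢
  intro c hc
  -- numerically trivial
  have h1 : ∀ y : Pts j Y, c.sum (fun x e => e * (N.num i j Y x y : E')) = 0 := by
    intro y
    have h2 : B'.bil (Finsupp.linearCombination E' (T'.cl Y) c) (S'.cl Y y) = 0 := by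
      rw [hc, map_zero, LinearMap.zero_apply]
    rw [← h2, Finsupp.linearCombination_apply, Finsupp.sum, Finsupp.sum, map_sum,
      LinearMap.sum_apply]
    apply Finset.sum_congr rfl
    intro p _
    rw [map_smul, LinearMap.smul_apply, smul_eq_mul]
    congr 1
    exact (hp p y).symm
  -- coordinates
  let B := Module.Basis.ofVectorSpace ℚ E'
  have h2 : ∀ b, c.mapRange (B.coord b) (map_zero _) ∈ ratZero ℚ i Y := by
    intro b
    apply ratZero_descend E
    apply hI
    apply hN
    intro y
    have h3 : B.coord b (c.sum (fun x e => e * (N.num i j Y x y : E'))) = 0 := by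
      rw [h1 y, map_zero]
    have h4 : (c.mapRange (B.coord b) (map_zero _)).sum
        (fun x e => e * N.num i j Y x y) = 0 := by
      rw [Finsupp.sum_mapRange_index (by simp), ← h3, Finsupp.sum, Finsupp.sum, map_sum]
      apply Finset.sum_congr rfl
      intro p _
      have h5 : c p * (N.num i j Y p y : E') = (N.num i j Y p y) • c p := by
        rw [Algebra.smul_def, mul_comm]
        rfl
      rw [h5, map_smul, smul_eq_mul, mul_comm]
    rw [ext, Finsupp.sum_mapRange_index (by simp)]
    have h5 := congrArg (algebraMap ℚ E) h4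
    rw [map_zero, Finsupp.sum, map_sum] at h5
    rw [← h5, Finsupp.sum]
    apply Finset.sum_congr rfl
    intro p _
    simp
  -- reassemble
  let s : Finset _ := c.support.biUnion (fun x => (B.repr (c x)).support)
  have h3 : c = ∑ b ∈ s, (B b) • ext E' (c.mapRange (B.coord b) (map_zero _)) := by
    ext x
    rw [Finsupp.finsetSum_apply]
    by_cases hx : x ∈ c.support
    · have h4 := B.linearCombination_repr (c x)
      rw [Finsupp.linearCombination_apply, Finsupp.sum_of_support_subset (s := s)] at h4
      · rw [← h4]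
        apply Finset.sum_congr rfl
        intro b _
        rw [Finsupp.smul_apply, ext_apply, Finsupp.mapRange_apply, smul_eq_mul,
          Algebra.smul_def, mul_comm]
        rfl
      · intro b hb
        exact Finset.mem_biUnion.mpr ⟨x, hx, hb⟩
      · intro b _
        rw [zero_smul]
    · have h4 : c x = 0 := Finsupp.notMem_support_iff.mp hx
      rw [h4]
      symm
      apply Finset.sum_eq_zero
      intro b _
      rw [Finsupp.smul_apply, ext_apply, Finsupp.mapRange_apply, h4]
      simp
  rw [h3]
  exact Submodule.sum_mem _ fun b _ => Submodule.smul_mem _ _ (ratZero_ext E' Y _ (h2 b))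

end Pool.Agent.Lib_helper66.OneP
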