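import Pool.Agent.Lib_helper66.OneP.Ord

/-!
The divisor of a rational function on a Noetherian integral scheme is a finite sum.
-/

set_option autoImplicit false

open CategoryTheory AlgebraicGeometry TopologicalSpace

namespace Pool.Agent.Lib_helper66.OneP

lemma eq_or_eq_of_coheight {W : Scheme.{0}} [IsIntegral W] {w w' : W}
    (hw : Order.coheight w = 1) (h : w' ⤳ w) : w' = w ∨ w' = genericPoint W := by
  by_cases h1 : w ⤳ w'
  · exact Or.inl (h.antisymm h1).eq
  · right
    have h2 : w < w' := ⟨h, h1⟩
    have h3 := Order.coheight_add_one_le h2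
    rw [hw] at h3
    have h4 : Order.coheight w' = 0 := by
      by_contra h5
      have h6 : 1 ≤ Order.coheight w' := Order.one_le_iff_pos.mpr (pos_iff_ne_zero.mpr h5)
      have h7 : (1 : ℕ∞) + 1 ≤ 1 := (add_le_add_left h6 1).trans h3
      exact absurd h7 (by decide)
    have h5 : IsMax w' := Order.coheight_eq_zero.mp h4
    have h6 : w' ≤ genericPoint W := genericPoint_specializes w'
    have h7 : w' ⤳ genericPoint W := h5 h6
    exact (Specializes.antisymm h7 (genericPoint_specializes w')).eq

/-- finitely many maximal points -/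
lemma finite_maximal (Z : Scheme.{0}) [NoetherianSpace Z] :
    {z : Z | ∀ y : Z, y ⤳ z → y = z}.Finite := by
  apply Set.Finite.of_finite_image (f := fun z => closure {z})
  · apply (NoetherianSpace.finite_irreducibleComponents (α := Z)).subset
    rintro _ ⟨z, hz, rfl⟩
    refine ⟨isIrreducible_singleton.closure, ?_⟩
    intro D hD hD2
    obtain ⟨ξ, hξ⟩ := QuasiSober.sober hD.closure isClosed_closure
    have h1 : ξ ⤳ z := by
      rw [specializes_iff_mem_closure, hξ.def]
      exact subset_closure (hD2 (subset_closure rfl))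
    have h2 := hz ξ h1
    change D ⊆ closure {z}
    rw [← h2, hξ.def]
    exact subset_closure
  · intro z _ w _ h
    have h1 : IsGenericPoint z (closure {z}) := rfl
    have h2 : IsGenericPoint w (closure {z}) := by
      rw [show closure {z} = closure {w} from h]
      rfl
    exact h1.eq h2

/-- every nonzero rational function is a unit on a nonempty open subset -/
lemma exists_unit (W : Scheme.{0}) [IsIntegral W] (φ : W.functionField) (hφ : φ ≠ 0) :
    ∃ (V : W.Opens) (_ : Nonempty V) (f : Γ(W, V)), IsUnit f ∧ W.germToFunctionField V f = φ := by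
  obtain ⟨V₁, hV₁, f, hf⟩ := W.presheaf.exists_germ_eq φ
  have hu : IsUnit (W.presheaf.germ V₁ (genericPoint W) hV₁ f) := by
    rw [hf]
    exact isUnit_iff_ne_zero.mpr hφ
  have hmem : genericPoint W ∈ W.basicOpen f := (W.mem_basicOpen f _ hV₁).mpr hu
  refine ⟨W.basicOpen f, ⟨⟨_, hmem⟩⟩, W.presheaf.map (homOfLE (W.basicOpen_le f)).op f, ?_, ?_⟩
  · exact RingedSpace.isUnit_res_basicOpen _ f
  · rw [← hf]
    exact W.presheaf.germ_res_apply (homOfLE (W.basicOpen_le f)) (genericPoint W) hmem f

/-- the order of a rational function is nonzero at finitely many points only -/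
theorem finite_ord (W : Scheme.{0}) [IsIntegral W] [IsNoetherian W] (φ : W.functionField)
    (hφ : φ ≠ 0) : {w : W | Scheme.ord φ w ≠ 0}.Finite := by
  obtain ⟨V, hV, f, hf, rfl⟩ := exists_unit W φ hφ
  let C : Closeds W := V.compl
  let Z : Scheme.{0} := (Scheme.IdealSheafData.vanishingIdeal C).subscheme
  let ι : Z ⟶ W := (Scheme.IdealSheafData.vanishingIdeal C).subschemeι
  have hι : IsClosedImmersion ι := inferInstanceAs
    (IsClosedImmersion (Scheme.IdealSheafData.vanishingIdeal C).subschemeι)
  have hrange : Set.range ι = C := by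
    have := Scheme.IdealSheafData.range_subschemeι (Scheme.IdealSheafData.vanishingIdeal C)
    rw [Scheme.IdealSheafData.coe_support_vanishingIdeal] at this
    exact this
  have hZ : NoetherianSpace Z := ι.isEmbedding.isInducing.noetherianSpace
  apply ((finite_maximal Z).image ι).subset
  intro w hw
  have hwV : w ∉ V := by
    intro h
    exact hw (Scheme.ord_of_isUnit hf h)
  have hco : Order.coheight w = 1 := by
    by_contra h
    exact hw (Scheme.ord_eq_zero_of_coheight_neq_one h _)
  have hwC : w ∈ Set.range ι := by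
    rw [hrange]
    exact hwV
  obtain ⟨z, rfl⟩ := hwC
  refine ⟨z, ?_, rfl⟩
  intro y hy
  have h1 : ι y ⤳ ι z := hy.map ι.continuous
  rcases eq_or_eq_of_coheight hco h1 with h2 | h2
  · exact ι.isEmbedding.injective h2
  · exfalso
    have h3 : ι y ∈ (C : Set W) := by
      rw [← hrange]
      exact ⟨y, rfl⟩
    apply h3
    rw [h2]
    obtain ⟨v⟩ := hV
    exact (genericPoint_specializes v.1).mem_open V.2 v.2

end Pool.Agent.Lib_helper66.OneP
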