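import Pool.Agent.Lib_helper55.Beil.Inj
import Pool.Agent.Lib_helper66.OneP.Fin

/-!
The localisation sequence for Chow groups: restriction of cycles to an open subvariety preserves
rational equivalence, and cycles on the open subvariety rationally equivalent to zero are
restrictions of such cycles.
-/

set_option autoImplicit false

open CategoryTheory AlgebraicGeometry TopologicalSpace Limits

namespace Pool.Agent.Lib_helper66.OneP

open Pool.Agent.Lib_helper55.Beil

variable {k : Type} [Field k] {E : Type} [Field E] {i : ℕ}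

/-- The map on `i`-dimensional points defined by an open immersion. -/
noncomputable def ptsMapO (i : ℕ) {U X : Var k} (j : OpenIn U X) (u : Pts i U) : Pts i X :=
  ⟨j.g u.1, by
    have := j.isOpen
    rw [dim_map j.g j.comm]
    exact u.2⟩

lemma openIn_injective {U X : Var k} (j : OpenIn U X) : Function.Injective j.g := by
  have := j.isOpen
  exact j.g.isOpenEmbedding.injective

lemma ptsMapO_injective (i : ℕ) {U X : Var k} (j : OpenIn U X) :
    Function.Injective (ptsMapO i j) := by
  intro z w h
  exact Subtype.ext (openIn_injective j (congrArg Subtype.val h))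

/-- restriction of cycles to an open subvariety -/
noncomputable def resCyc {U X : Var k} (j : OpenIn U X) : (Pts i X →₀ E) →ₗ[E] (Pts i U →₀ E) :=
  Finsupp.lcomapDomain (ptsMapO i j) (ptsMapO_injective i j)

lemma resCyc_apply {U X : Var k} (j : OpenIn U X) (c : Pts i X →₀ E) (u : Pts i U) :
    resCyc j c u = c (ptsMapO i j u) := rfl

lemma mem_range_ptsMapO {U X : Var k} (j : OpenIn U X) (p : Pts i X)
    (hp : p.1 ∈ Set.range j.g) : p ∈ Set.range (ptsMapO i j) := by
  obtain ⟨z, hz⟩ := hp
  have := j.isOpen
  refine ⟨⟨z, ?_⟩, Subtype.ext hz⟩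
  rw [← dim_map j.g j.comm, hz]
  exact p.2

/-- restriction of a divisor is a divisor -/
lemma isDiv_res {W W' X U : Var k} (a : ClosedIn W X) (j : OpenIn U X) (b : ClosedIn W' U)
    (h : W'.X ⟶ W.X) [IsOpenImmersion h] [IsIntegral W.X] [IsIntegral W'.X]
    (hc : h ≫ a.g = b.g ≫ j.g)
    (hr : ∀ w, a.g w ∈ Set.range j.g → w ∈ Set.range h) (φ : W.X.functionField)
    (c : Pts i X →₀ E) (hd : IsDiv a φ c) : IsDiv b (funMap h φ) (resCyc j c) := by
  have hpt : ∀ w, a.g (h w) = j.g (b.g w) := by
    intro w
    rw [← Scheme.Hom.comp_apply, hc, Scheme.Hom.comp_apply]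
  constructor
  · intro w hw
    rw [resCyc_apply, ord_funMap]
    have hj := j.isOpen
    have e : ptsMapO i j ⟨b.g w, hw⟩ = ⟨a.g (h w), by
        rw [hpt w, dim_map j.g j.comm]; exact hw⟩ := Subtype.ext (hpt w).symm
    rw [e]
    exact hd.1 (h w) _
  · intro u hu
    rw [resCyc_apply]
    apply hd.2
    rintro ⟨w, hw⟩
    apply hu
    have h1 : a.g w = j.g u.1 := hw
    obtain ⟨w', rfl⟩ := hr w ⟨u.1, h1.symm⟩
    refine ⟨w', ?_⟩
    apply openIn_injective j
    rw [← hpt, h1]

/-- the intersection of a closed and an open subvariety -/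
noncomputable def interVar {W X U : Var k} (a : ClosedIn W X) (j : OpenIn U X) : Var k :=
  have := a.closed
  have := j.isOpen
  { X := pullback a.g j.g
    f := pullback.snd a.g j.g ≫ U.f
    sep := inferInstance
    lft := inferInstance
    qc := inferInstance }

/-- restriction of cycles preserves rational equivalence -/
theorem resCyc_ratZero {U X : Var k} (j : OpenIn U X) (c : Pts i X →₀ E)
    (hc : c ∈ ratZero E i X) : resCyc j c ∈ ratZero E i U := by
  induction hc using Submodule.span_induction with
  | mem c hc =>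
    obtain ⟨W, hW, a, φ, h1, h2, h3⟩ := hc
    have ha := a.closed
    have hj := j.isOpen
    have hcomm : pullback.fst a.g j.g ≫ a.g = pullback.snd a.g j.g ≫ j.g := pullback.condition
    let W' : Var k := interVar a j
    let b : ClosedIn W' U := ⟨pullback.snd a.g j.g, rfl,
      MorphismProperty.pullback_snd (P := @IsClosedImmersion) a.g j.g ha⟩
    let h : W'.X ⟶ W.X := pullback.fst a.g j.g
    have hh : IsOpenImmersion h := inferInstanceAs (IsOpenImmersion (pullback.fst a.g j.g))
    have hr : ∀ w, a.g w ∈ Set.range j.g → w ∈ Set.range h := by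
      intro w hw
      have h4 := Scheme.Pullback.range_fst a.g j.g
      rw [show Set.range h = Set.range (pullback.fst a.g j.g) from rfl, h4]
      exact hw
    rcases isEmpty_or_nonempty W'.X with he | hne
    · have h4 : resCyc j c = 0 := by
        ext u
        rw [resCyc_apply]
        apply h3.2
        rintro ⟨w, hw⟩
        obtain ⟨w', -⟩ := hr w ⟨u.1, hw.symm⟩
        exact he.false w'
      rw [h4]
      exact zero_mem _
    · have hint : IsIntegral W'.X := isIntegral_of_isOpenImmersion h
      refine Submodule.subset_span ⟨W', hint, b, funMap h φ, ?_, ?_, isDiv_res a j b h hcomm hr φ c h3⟩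
      · have h5 : h ≫ W.f = W'.f := by
          have h6 : W'.f = pullback.snd a.g j.g ≫ U.f := rfl
          rw [h6, ← j.comm, ← a.comm, ← Category.assoc, ← Category.assoc]
          exact congrArg (· ≫ X.f) hcomm
        rw [← dim_map h h5, genericPoint_eq_of_isOpenImmersion h, h1]
      · intro h5
        apply h2
        have h6 : Function.Injective (funMap h).hom := (funMap h).hom.injective
        exact h6 (h5.trans (map_zero (funMap h).hom).symm)
  | zero => rw [map_zero]; exact zero_mem _
  | add x y _ _ hx hy => rw [map_add]; exact add_mem hx hy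
  | smul r x _ hx => rw [map_smul]; exact Submodule.smul_mem _ _ hx

/-- the scheme-theoretic image of a morphism from an integral scheme is integral -/
lemma isIntegral_image {A B : Scheme.{0}} (f : A ⟶ B) [QuasiCompact f] [IsIntegral A] :
    IsIntegral f.image := by
  have hred : IsReduced f.image := by
    change IsReduced f.ker.subscheme
    have h : ∀ U, IsReduced (f.ker.subschemeCover.openCover.X U) := by
      intro U
      change IsReduced (Spec (.of (Γ(B, U.1) ⧸ f.ker.ideal U)))
      have : _root_.IsReduced (Γ(B, U.1) ⧸ f.ker.ideal U) := by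
        rw [← Ideal.isRadical_iff_quotient_reduced, f.ker_apply]
        intro x hx
        obtain ⟨n, hn⟩ := hx
        rw [RingHom.mem_ker] at hn ⊢
        rw [map_pow] at hn
        exact IsReduced.eq_zero _ ⟨n, hn⟩
      have : _root_.IsReduced (CommRingCat.of (Γ(B, U.1) ⧸ f.ker.ideal U)) := this
      infer_instance
    exact IsReduced.of_openCover _ f.ker.subschemeCover.openCover
  have hirr : IrreducibleSpace f.image := by
    rw [irreducibleSpace_def]
    have h1 : IsIrreducible (Set.range f.toImage) := by
      rw [← Set.image_univ]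
      exact (IrreducibleSpace.isIrreducible_univ A).image _ f.toImage.continuous.continuousOn
    have h2 := h1.closure
    rwa [(IsDominant.denseRange (f := f.toImage)).closure_range] at h2
  exact isIntegral_of_irreducibleSpace_of_isReduced _

lemma isDiv_unique {W X : Var k} (a : ClosedIn W X) [IsIntegral W.X] (φ : W.X.functionField)
    (c d : Pts i X →₀ E) (hc : IsDiv a φ c) (hd : IsDiv a φ d) : c = d := by
  ext x
  by_cases hx : x.1 ∈ Set.range a.g
  · obtain ⟨x, hxi⟩ := x
    obtain ⟨w, rfl⟩ := hx
    rw [hc.1 w hxi, hd.1 w hxi]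
  · rw [hc.2 x hx, hd.2 x hx]

/-- the divisor of a rational function exists -/
lemma exists_div {W X : Var k} (a : ClosedIn W X) [IsIntegral W.X] (φ : W.X.functionField)
    (hφ : φ ≠ 0) : ∃ c : Pts i X →₀ E, IsDiv a φ c := by
  classical
  let F : Pts i X → E := fun x => if hx : x.1 ∈ Set.range a.g then
    ((Scheme.ord φ hx.choose : ℤ) : E) else 0
  have hF1 : ∀ (w : W.X) (h : X.dim (a.g w) = i), F ⟨a.g w, h⟩ = ((Scheme.ord φ w : ℤ) : E) := by
    intro w h
    have hx : a.g w ∈ Set.range a.g := ⟨w, rfl⟩
    have h1 : F ⟨a.g w, h⟩ = ((Scheme.ord φ hx.choose : ℤ) : E) := dif_pos hx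
    rw [h1, closedIn_injective a hx.choose_spec]
  have hF2 : ∀ x : Pts i X, x.1 ∉ Set.range a.g → F x = 0 := fun x hx => dif_neg hx
  have hfin : (Function.support F).Finite := by
    refine (((finite_ord W.X φ hφ).image a.g).preimage Subtype.val_injective.injOn).subset ?_
    intro x hx
    by_cases hx2 : x.1 ∈ Set.range a.g
    · obtain ⟨x, hxi⟩ := x
      obtain ⟨w, rfl⟩ := hx2
      refine ⟨w, ?_, rfl⟩
      intro h
      apply hx
      rw [hF1 w hxi, h, Int.cast_zero]
    · exact absurd (hF2 x hx2) hx
  exact ⟨Finsupp.ofSupportFinite F hfin, hF1, hF2⟩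

/-- every divisor on an open subvariety is the restriction of a divisor -/
theorem exists_isDiv {U X : Var k} (j : OpenIn U X) (W' : Var k) (hint : IsIntegral W'.X)
    (b : ClosedIn W' U) (φ' : W'.X.functionField) (hφ : φ' ≠ 0)
    (hdim : W'.dim (genericPoint W'.X) = (i + 1 : ℕ)) (c : Pts i U →₀ E) (hd : IsDiv b φ' c) :
    ∃ c' ∈ ratZero E i X, resCyc j c' = c := by
  have hb := b.closed
  have hj := j.isOpen
  let f : W'.X ⟶ X.X := b.g ≫ j.g
  have hf1 : IsImmersion f := inferInstance
  have hf2 : QuasiCompact f := by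
    have : QuasiCompact (f ≫ X.f) := by
      have e : f ≫ X.f = W'.f := by
        rw [Category.assoc, j.comm, b.comm]
      rw [e]
      infer_instance
    exact QuasiCompact.of_comp f X.f
  let W : Var k :=
    { X := f.image
      f := f.imageι ≫ X.f
      sep := inferInstance
      lft := inferInstance
      qc := inferInstance }
  have hW : IsIntegral W.X := isIntegral_image f
  have ha : IsClosedImmersion f.imageι := inferInstance
  let a : ClosedIn W X := ⟨f.imageι, rfl, ha⟩
  let h : W'.X ⟶ W.X := f.toImage
  have hh : IsOpenImmersion h := inferInstanceAs (IsOpenImmersion f.toImage)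
  have hcomm : h ≫ a.g = b.g ≫ j.g := f.toImage_imageι
  have hpt : ∀ w, a.g (h w) = j.g (b.g w) := by
    intro w
    rw [← Scheme.Hom.comp_apply, hcomm, Scheme.Hom.comp_apply]
  have hr : ∀ w, a.g w ∈ Set.range j.g → w ∈ Set.range h := by
    rintro w ⟨u, hu⟩
    have h1 : a.g w ∈ closure (Set.range f) := by
      have h2 : Set.range f.imageι = (f.ker.support : Set X.X) :=
        Scheme.IdealSheafData.range_subschemeι _
      have h3 : a.g w ∈ Set.range f.imageι := ⟨w, rfl⟩
      rw [h2, Scheme.Hom.support_ker] at h3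
      exact h3
    have h4 : u ∈ j.g ⁻¹' closure (Set.range f) := by
      change j.g u ∈ closure (Set.range f)
      rw [hu]
      exact h1
    rw [j.g.isOpenEmbedding.isOpenMap.preimage_closure_eq_closure_preimage j.g.continuous] at h4
    have h5 : j.g ⁻¹' Set.range f = Set.range b.g := by
      ext v
      constructor
      · rintro ⟨w', hw'⟩
        refine ⟨w', openIn_injective j ?_⟩
        rw [← hw', Scheme.Hom.comp_apply]
      · rintro ⟨w', rfl⟩
        exact ⟨w', by rw [Scheme.Hom.comp_apply]⟩
    rw [h5, b.g.isClosedEmbedding.isClosed_range.closure_eq] at h4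
    obtain ⟨w', rfl⟩ := h4
    refine ⟨w', ?_⟩
    apply closedIn_injective a
    rw [hpt, hu]
  let φ : W.X.functionField := inv (funMap h) φ'
  have hφ' : funMap h φ = φ' := by
    change funMap h (inv (funMap h) φ') = φ'
    rw [← ConcreteCategory.comp_apply, IsIso.inv_hom_id]
    rfl
  have hφ0 : φ ≠ 0 := by
    intro h0
    apply hφ
    rw [← hφ', h0]
    exact map_zero (funMap h).hom
  obtain ⟨c', hc'⟩ := exists_div (E := E) (i := i) a φ hφ0
  refine ⟨c', Submodule.subset_span ⟨W, hW, a, φ, ?_, hφ0, hc'⟩, ?_⟩
  · have h5 : h ≫ W.f = W'.f := by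
      have h6 : W.f = a.g ≫ X.f := rfl
      rw [h6, ← Category.assoc, hcomm, Category.assoc, j.comm, b.comm]
    rw [← genericPoint_eq_of_isOpenImmersion h, dim_map h h5, hdim]
  · have h7 := isDiv_res a j b h hcomm hr φ c' hc'
    rw [hφ'] at h7
    exact isDiv_unique b φ' _ _ h7 hd

/-- cycles on an open subvariety rationally equivalent to zero are restrictions of such cycles -/
theorem exists_ratZero {U X : Var k} (j : OpenIn U X) (c : Pts i U →₀ E)
    (hc : c ∈ ratZero E i U) : ∃ c' ∈ ratZero E i X, resCyc j c' = c := by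
  induction hc using Submodule.span_induction with
  | mem c hc =>
    obtain ⟨W', hint, b, φ', h1, h2, h3⟩ := hc
    exact exists_isDiv j W' hint b φ' h2 h1 c h3
  | zero => exact ⟨0, zero_mem _, map_zero _⟩
  | add x y _ _ hx hy =>
    obtain ⟨x', hx', rfl⟩ := hx
    obtain ⟨y', hy', rfl⟩ := hy
    exact ⟨x' + y', add_mem hx' hy', map_add _ _ _⟩
  | smul r x _ hx =>
    obtain ⟨x', hx', rfl⟩ := hx
    exact ⟨r • x', Submodule.smul_mem _ _ hx', map_smul _ _ _⟩

end Pool.Agent.Lib_helper66.OneP
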