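import Pool.Agent.Lib_helper66.OneP.Defs2
import Pool.Agent.Lib_helper66.OneP.Inj
import Pool.Agent.Lib_helper66.OneP.Loc

/-!
Injectivity of the cycle class map for all varieties, from injectivity for smooth proper varieties
and surjectivity.
-/

set_option autoImplicit false

open CategoryTheory AlgebraicGeometry Polynomial TopologicalSpace

namespace Pool.Agent.Lib_helper66.OneP

open Pool.Agent.Lib_helper55.Beil

universe v w

variable {k : Type} [Field k] {E : Type} [Field E] {i : ℕ}

/-- the generalised eigenspace for one in degree `2 * i + 1` -/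
def gen1 (T : Homology.{v} k E i) (X : Var k) : Submodule E (T.H (2 * i + 1) X) :=
  Module.End.maxGenEigenspace (T.frob (2 * i + 1) X) 1

lemma injC_iff (T : Homology.{v} k E i) (X : Var k) :
    T.InjC X ↔ ∀ c, cls T X c = 0 → c ∈ ratZero E i X := Iff.rfl

lemma cls_add (T : Homology.{v} k E i) (X : Var k) (c d : Pts i X →₀ E) :
    cls T X (c + d) = cls T X c + cls T X d := map_add _ _ _

lemma cls_sub (T : Homology.{v} k E i) (X : Var k) (c d : Pts i X →₀ E) :
    cls T X (c - d) = cls T X c - cls T X d := map_sub _ _ _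

lemma exists_cls (T : Homology.{v} k E i) (X : Var k) (m : T.H (2 * i) X) (hm : m ∈ T.alg X) :
    ∃ c, cls T X c = m := by
  rw [Homology.alg, ← Finsupp.range_linearCombination] at hm
  exact hm

lemma cls_mem_gen (T : Homology.{v} k E i) (X : Var k) (c : Pts i X →₀ E) :
    cls T X c ∈ T.gen X := T.alg_le_gen X (T.linComb_mem_alg X c)

lemma push_cls (T : Homology.{v} k E i) {Z X : Var k} (a : ClosedIn Z X) (c : Pts i Z →₀ E) :
    T.push (2 * i) a (cls T Z c) = cls T X (pushCyc a c) := T.push_linComb a c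

lemma pushCyc_ratZero {Z X : Var k} (a : ClosedIn Z X) (c : Pts i Z →₀ E)
    (hc : c ∈ ratZero E i Z) : pushCyc a c ∈ ratZero E i X := ratZero_map a c hc

lemma res_cls (T : Homology.{v} k E i) {U X : Var k} (j : OpenIn U X) (c : Pts i X →₀ E) :
    T.res (2 * i) j (cls T X c) = cls T U (resCyc j c) := by
  classical
  obtain ⟨Z, a, ha⟩ := complementary_of_open j
  induction c using Finsupp.induction_linear with
  | zero => simp [cls]
  | add f g hf hg => rw [cls_add, map_add, hf, hg, map_add, cls_add]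
  | single p e =>
    have h1 : cls T X (Finsupp.single p e) = e • T.cl X p := Finsupp.linearCombination_single _ _ _
    rw [h1, map_smul]
    by_cases hp : p.1 ∈ Set.range j.g
    · obtain ⟨u, rfl⟩ := mem_range_ptsMapO j p hp
      have h2 : resCyc j (Finsupp.single (ptsMapO i j u) e) = Finsupp.single u e := by
        ext v
        rw [resCyc_apply, Finsupp.single_apply, Finsupp.single_apply]
        simp only [(ptsMapO_injective i j).eq_iff]
      rw [h2]
      have h3 : cls T U (Finsupp.single u e) = e • T.cl U u := Finsupp.linearCombination_single _ _ _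
      rw [h3]
      congr 1
      exact T.res_cl j u (ptsMapO i j u).2
    · have h2 : resCyc j (Finsupp.single p e) = 0 := by
        ext v
        rw [resCyc_apply, Finsupp.single_apply, if_neg]
        · rfl
        · rintro rfl
          exact hp ⟨v.1, rfl⟩
      have hp' : p.1 ∈ Set.range a.g := by
        rw [show Set.range a.g = (Set.range j.g)ᶜ from ha]
        exact hp
      rw [h2, T.res_cl_eq_zero a j ha p hp', smul_zero]
      simp [cls]

/-- a cycle whose restriction to the open part vanishes comes from the closed part -/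
lemma exists_pushCyc {Z U X : Var k} (a : ClosedIn Z X) (j : OpenIn U X) (h : Complementary a j)
    (c : Pts i X →₀ E) (hc : resCyc j c = 0) : ∃ z : Pts i Z →₀ E, pushCyc a z = c := by
  refine ⟨Finsupp.comapDomain (ptsMap i a) c (ptsMap_injective i a).injOn, ?_⟩
  apply Finsupp.mapDomain_comapDomain _ (ptsMap_injective i a)
  intro p hp
  apply mem_range_ptsMap a p
  rw [show Set.range a.g = (Set.range j.g)ᶜ from h]
  intro hp2
  obtain ⟨u, rfl⟩ := mem_range_ptsMapO j p hp2
  have h1 := DFunLike.congr_fun hc u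
  rw [resCyc_apply] at h1
  exact (Finsupp.mem_support_iff.mp hp) h1

lemma resCyc_pushCyc {Z U X : Var k} (a : ClosedIn Z X) (j : OpenIn U X) (h : Complementary a j)
    (z : Pts i Z →₀ E) : resCyc j (pushCyc a z) = 0 := by
  ext u
  rw [resCyc_apply, pushCyc, Finsupp.mapDomain_of_notMem_range]
  · rfl
  · rintro ⟨w, hw⟩
    have h1 : a.g w.1 = j.g u.1 := congrArg Subtype.val hw
    have h2 : a.g w.1 ∈ Set.range a.g := ⟨_, rfl⟩
    rw [show Set.range a.g = (Set.range j.g)ᶜ from h] at h2
    exact h2 ⟨u.1, h1.symm⟩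

/-- every cycle on an open subvariety extends -/
lemma exists_resCyc {U X : Var k} (j : OpenIn U X) (c : Pts i U →₀ E) :
    ∃ c' : Pts i X →₀ E, resCyc j c' = c := by
  refine ⟨Finsupp.mapDomain (ptsMapO i j) c, ?_⟩
  ext u
  rw [resCyc_apply, Finsupp.mapDomain_apply (ptsMapO_injective i j)]

/-- injectivity for open subvarieties -/
lemma injC_open (T : Homology.{v} k E i) (hgood : ∀ X : Var k, T.gen X ≤ T.alg X)
    {V Y : Var k} (j : OpenIn V Y) (hY : T.InjC Y) : T.InjC V := by
  rw [injC_iff] at hY ⊢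
  intro c hc
  obtain ⟨D, a, ha⟩ := complementary_of_open j
  obtain ⟨c', rfl⟩ := exists_resCyc j c
  have h1 : T.res (2 * i) j (cls T Y c') = 0 := by rw [res_cls, hc]
  obtain ⟨z, hz⟩ := (T.exact_X (2 * i) a j ha _).mp h1
  have h2 : T.push (2 * i) a z ∈ T.gen Y := by
    rw [hz]
    exact cls_mem_gen T Y c'
  obtain ⟨z', hz', h3⟩ := maxGen_lift (T.frob (2 * i) D) (T.frob (2 * i) Y) (T.push (2 * i) a)
    (T.push_frob (2 * i) a) h2
  obtain ⟨d, hd⟩ := exists_cls T D z' (hgood D hz')
  have h4 : cls T Y (c' - pushCyc a d) = 0 := by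
    rw [cls_sub, ← push_cls, hd, h3, hz, sub_self]
  have h5 := resCyc_ratZero j _ (hY _ h4)
  rwa [map_sub, resCyc_pushCyc a j ha, sub_zero] at h5

/-- injectivity descends along finite etale coverings -/
lemma injC_pull (T : Homology.{v} k E i) (hP : Pull T) {V U : Var k} (g : FinEt V U)
    (hV : T.InjC V) : T.InjC U := by
  rw [injC_iff] at hV ⊢
  intro c hc
  obtain ⟨p, P, h1, h2⟩ := hP V U g
  apply h2
  apply hV
  rw [h1, hc]
  exact map_zero P.lin

/-- the classes in `H_(2i+1)` of an open subvariety of a smooth proper variety -/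
lemma kone_open (T : Homology.{v} k E i) (hgood : ∀ X : Var k, T.gen X ≤ T.alg X)
    (hPur : Purity T) (K : Kone T) (hKi : K.Invariant) (hK : K.Localisation) {V Y : Var k} (j : OpenIn V Y) (d : ℕ)
    (hYs : Y.SmoothProper d) (hY : T.InjC Y) (u : T.H (2 * i + 1) V) (hu : u ∈ gen1 T V) :
    K.Mem V u := by
  rw [injC_iff] at hY
  obtain ⟨D, a, ha⟩ := complementary_of_open j
  obtain ⟨bd, h1, h2, h3, h4, h5⟩ := hK D V Y a j ha
  have h6 : bd.lin u ∈ T.gen D :=
    maxGen_map (T.frob (2 * i + 1) V) (T.frob (2 * i) D) bd.lin h1 hu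
  obtain ⟨c, hc⟩ := exists_cls T D _ (hgood D h6)
  have h7 : T.push (2 * i) a (cls T D c) = 0 := by
    rw [hc]
    exact (h3 _).mpr ⟨u, rfl⟩
  rw [push_cls] at h7
  obtain ⟨u', hu', h8⟩ := h5 c (hY _ h7)
  have h9 : bd.lin (u - u') = 0 := by
    rw [map_sub, ← hc]
    exact sub_eq_zero.mpr h8.symm
  obtain ⟨x, hx⟩ := (h2 (u - u')).mp h9
  have hx' : T.res (2 * i + 1) j x = u - u' := hx
  have hgu' : u' ∈ gen1 T V := (mem_maxGen_iff _ _).mpr ⟨1, by
    have h10 : T.frob (2 * i + 1) V u' = u' := hKi V u' hu'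
    rw [pow_one, LinearMap.sub_apply, Module.End.one_apply, h10, sub_self]⟩
  have h11 : T.res (2 * i + 1) j x ∈ gen1 T V := by
    rw [hx']
    exact sub_mem hu hgu'
  obtain ⟨x', hx'', h12⟩ := maxGen_lift (T.frob (2 * i + 1) Y) (T.frob (2 * i + 1) V)
    (T.res (2 * i + 1) j) (T.res_frob (2 * i + 1) j) h11
  have h13 : x' = 0 := maxGen_eq_bot (T.frob (2 * i + 1) Y) (fun m hm => hPur Y d hYs m hm) hx''
  rw [h13, map_zero, hx'] at h12
  rw [sub_eq_zero.mp h12.symm]
  exact hu'

/-- the classes in `H_(2i+1)` of a quotient by a finite etale covering -/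
lemma kone_trace (T : Homology.{v} k E i) (K : Kone T) (hK : K.Trace) {V U : Var k}
    (g : FinEt V U) (hV : ∀ u ∈ gen1 T V, K.Mem V u) (u : T.H (2 * i + 1) U)
    (hu : u ∈ gen1 T U) : K.Mem U u := by
  obtain ⟨tr, h1, h2, h3⟩ := hK V U g
  obtain ⟨v, rfl⟩ := h1 u
  obtain ⟨v', hv', h4⟩ := maxGen_lift (T.frob (2 * i + 1) V) (T.frob (2 * i + 1) U) tr.lin h2 hu
  have h5 : tr.app v' = tr.app v := h4
  rw [← h5]
  exact h3 _ (hV v' hv')

/-- gluing of injectivity -/
lemma injC_glue2 (T : Homology.{v} k E i) (K : Kone T) (hK : K.Localisation) {Z U X : Var k} (a : ClosedIn Z X) (j : OpenIn U X)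
    (h : Complementary a j) (hU : T.InjC U) (hKU : ∀ u ∈ gen1 T U, K.Mem U u) (hZ : T.InjC Z) :
    T.InjC X := by
  rw [injC_iff] at hU hZ ⊢
  intro c hc
  have h1 : cls T U (resCyc j c) = 0 := by rw [← res_cls, hc, map_zero]
  obtain ⟨c₁, hc₁, h2⟩ := exists_ratZero j _ (hU _ h1)
  obtain ⟨z, hz⟩ := exists_pushCyc a j h (c - c₁) (by rw [map_sub, h2, sub_self])
  have h3 : cls T X c₁ = 0 := T.cl_rat X c₁ hc₁
  have h4 : T.push (2 * i) a (cls T Z z) = 0 := by
    rw [push_cls, hz, cls_sub, hc, h3, sub_self]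
  obtain ⟨bd, h5, -, h6, h7, -⟩ := hK Z U X a j h
  obtain ⟨u, hu⟩ := (h6 _).mp h4
  have hu' : bd.lin u ∈ Module.End.maxGenEigenspace (T.frob (2 * i) Z) 1 := by
    have h8 : bd.lin u = cls T Z z := hu
    rw [h8]
    exact cls_mem_gen T Z z
  obtain ⟨u', hu1, hu2⟩ := maxGen_lift (T.frob (2 * i + 1) U) (T.frob (2 * i) Z) bd.lin h5 hu'
  have hu3 : bd.app u' = cls T Z z := by
    have h8 : bd.lin u' = bd.app u := hu2
    exact h8.trans hu
  obtain ⟨c', hc', h9⟩ := h7 u' (hKU u' hu1)
  have h10 : cls T Z (z - c') = 0 := by rw [cls_sub, ← hu3, ← h9, sub_self]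
  have h11 := pushCyc_ratZero a _ (hZ _ h10)
  have h12 : pushCyc a (z - c') = pushCyc a z - pushCyc a c' := by
    exact (Finsupp.lmapDomain E E (ptsMap i a)).map_sub z c'
  rw [h12] at h11
  have h13 : pushCyc a z ∈ ratZero E i X := by
    have := add_mem h11 hc'
    rwa [sub_add_cancel] at this
  rw [hz] at h13
  have := add_mem h13 hc₁
  rwa [sub_add_cancel] at this

/-- Injectivity for the varieties of dimension at most `2 * i + 1`: the induction. -/
lemma injC_main [PerfectField k] (hA : Alterations k) (T : Homology.{v} k E i)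
    (hgood : ∀ X : Var k, T.gen X ≤ T.alg X) (hPur : Purity T) (hPull : Pull T) (K : Kone T)
    (hKi : K.Invariant) (hK : K.Localisation) (hKt : K.Trace)
    (hY : ∀ (Y : Var k) (d : ℕ), d ≤ 2 * i + 1 → Y.SmoothProper d → T.InjC Y)
    (X₀ : Var k) (C : Closeds X₀.X) :
    ∀ (Y : Var k) (g : Y.X ⟶ X₀.X), g ≫ X₀.f = Y.f → IsPreimmersion g → (∀ y, g y ∈ C) →
      Y.DimLE (2 * i + 1) → T.InjC Y := by
  induction C using WellFoundedLT.induction with
  | ind C ih =>
  intro Y g comm hg hC hdim
  apply T.injC_of_red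
  have hred := isReduced_redVar Y
  have hcl := (redVarIn Y).closed
  set Y' := redVar Y with hY'
  set g' : Y'.X ⟶ X₀.X := (redVarIn Y).g ≫ g
  have comm' : g' ≫ X₀.f = Y'.f := by
    rw [Category.assoc, comm, (redVarIn Y).comm]
  have hC' : ∀ y, g' y ∈ C := fun y => hC _
  have hdim' : Y'.DimLE (2 * i + 1) := by
    intro y
    rw [← dim_map (redVarIn Y).g (redVarIn Y).comm]
    exact hdim _
  rcases isEmpty_or_nonempty Y'.X with he | ⟨⟨x⟩⟩
  · rw [injC_iff]
    intro c _
    have : c = 0 := by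
      ext p
      exact (he.false p.1).elim
    rw [this]
    exact zero_mem _
  obtain ⟨η, -, hη⟩ := exists_maximal Y' x
  obtain ⟨U, hU1, -, hU3, hU4, hU5, hU6⟩ := exists_nice Y' η hη ⊤ trivial
  have hop := (openVarIn Y' U).isOpen
  have hdimU : (openVar Y' U).dim (genericPoint (openVar Y' U).X) = Y'.dim η := by
    rw [← dim_map (openVarIn Y' U).g (openVarIn Y' U).comm, hU6]
  obtain ⟨d, hd⟩ := Cardinal.lt_aleph0.1 ((hdim' η).trans_lt (Cardinal.natCast_lt_aleph0))
  have hdle : d ≤ 2 * i + 1 := by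
    have := hdim' η
    rw [hd] at this
    exact_mod_cast this
  obtain ⟨U', V, W, jU, γ, jV, ⟨u₀⟩, hW⟩ := hA (openVar Y' U) hU5 d (hdimU.trans hd)
  have hWinj := hY W d hdle hW
  have hVinj := injC_open T hgood jV hWinj
  have hUinj := injC_pull T hPull γ hVinj
  have hKU := kone_trace T K hKt γ (kone_open T hgood hPur K hKi hK jV d hW hWinj)
  let j' : OpenIn U' Y' := jU.trans (openVarIn Y' U)
  have hj' := j'.isOpen
  let O : Y'.X.Opens := j'.g.opensRange
  have hcomp : Complementary (closedVarIn Y' O.compl) j' := by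
    rw [Complementary, range_closedVarIn]
    rfl
  have hcl2 := (closedVarIn Y' O.compl).closed
  refine injC_glue2 T K hK (closedVarIn Y' O.compl) j' hcomp hUinj hKU ?_
  refine ih (Closeds.closure (g' '' (O.compl : Set Y'.X)))
    (lt_of_closed g' C hC' O.compl (j'.g u₀) (fun hcon => hcon ⟨u₀, rfl⟩))
    (closedVar Y' O.compl) ((closedVarIn Y' O.compl).g ≫ g') ?_ inferInstance ?_ ?_
  · rw [Category.assoc, comm', (closedVarIn Y' O.compl).comm]
  · intro y
    have h1 : (closedVarIn Y' O.compl).g y ∈ (O.compl : Set Y'.X) := by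
      rw [← range_closedVarIn]
      exact ⟨y, rfl⟩
    exact subset_closure ⟨_, h1, rfl⟩
  · intro y
    rw [← dim_map (closedVarIn Y' O.compl).g (closedVarIn Y' O.compl).comm]
    exact hdim' _

/-- Injectivity for all varieties. -/
theorem inj_full [PerfectField k] (hA : Alterations k) (T : Homology.{v} k E i)
    (hgood : ∀ X : Var k, T.gen X ≤ T.alg X) (hT : Published T)
    (hY : ∀ (Y : Var k) (d : ℕ), d ≤ 2 * i + 1 → Y.SmoothProper d → T.Inj Y) (X : Var k) :
    T.Inj X := by
  obtain ⟨K, hKi, hK, hKt⟩ := hT.kone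
  apply T.inj_all
  intro X hX
  rw [T.inj_iff]
  exact injC_main hA T hgood hT.purity hT.pull K hKi hK hKt
    (fun Y d h1 h2 => (T.inj_iff Y).mp (hY Y d h1 h2)) X ⊤ X (𝟙 _) (Category.id_comp _)
    inferInstance (fun _ => trivial) hX

/-- Surjectivity for one prime implies surjectivity for all primes. -/
theorem surj_main [PerfectField k] (hA : Alterations k) (N : Numbers k) {E' : Type} [Field E']
    [CharZero E] [CharZero E'] (T : ∀ i, Homology.{v} k E i) (T' : ∀ i, Homology.{w} k E' i)
    (hT : Realizes N T) (hT' : Realizes N T') (i : ℕ) (hP : Published (T' i))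
    (hS : ∀ j ≤ i, ∀ X : Var k, (T j).gen X ≤ (T j).alg X) (X : Var k) : (T' i).Surj X ∧ (T' i).Semisimple X := by
  have hgood := (T' i).good_all (smallSurj_transfer N T T' hT hT' hA i hP.weights hP.boundary
    hP.trace hS)
  exact ⟨(T' i).surj_of_good X (hgood X), (T' i).semisimple_of_good X (hgood X)⟩

/-- The main theorem: the conjecture for one prime implies the conjecture for all primes. -/
theorem main [PerfectField k] (hA : Alterations k) (N : Numbers k) {E' : Type} [Field E']
    [CharZero E] [CharZero E'] (T : ∀ i, Homology.{v} k E i) (T' : ∀ i, Homology.{w} k E' i)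
    (hT : Realizes N T) (hT' : Realizes N T') (i : ℕ) (hP : Published (T' i))
    (hS : ∀ j ≤ i + 1, ∀ X : Var k, (T j).gen X ≤ (T j).alg X)
    (hI : ∀ (Y : Var k) (d : ℕ), d ≤ 2 * i + 1 → Y.SmoothProper d → (T i).Inj Y) (X : Var k) :
    (T' i).Inj X ∧ (T' i).Surj X ∧ (T' i).Semisimple X := by
  have hgood := (T' i).good_all (smallSurj_transfer N T T' hT hT' hA i hP.weights hP.boundary
    hP.trace (fun j hj => hS j (by omega)))
  refine ⟨inj_full hA (T' i) hgood hP ?_ X, (T' i).surj_of_good X (hgood X),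
    (T' i).semisimple_of_good X (hgood X)⟩
  intro Y d hd hY
  rcases le_or_gt i d with h1 | h1
  · obtain ⟨j, rfl⟩ : ∃ j, d = i + j := ⟨d - i, by omega⟩
    obtain ⟨B', -, -, h2⟩ := hT'.1 i j Y hY
    exact inj_transfer N (T i) (T' i) (T' j) Y B' h2
      (smoothProper_main N T T hT hT i j Y hY (hS i (by omega) Y) (hS j (by omega) Y)).2
      (hI Y _ hd hY)
  · rw [Homology.inj_iff, injC_iff]
    intro c _
    have : c = 0 := by
      ext p
      exfalso
      obtain ⟨h2, h3, h4, h5⟩ := hY
      have h6 := dim_le_of_specializes Y (genericPoint_specializes p.1)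
      rw [p.2, h5, Nat.cast_le] at h6
      omega
    rw [this]
    exact zero_mem _

end Pool.Agent.Lib_helper66.OneP
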