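import Pool.Agent.Lib_helper66.OneP.Loc

/-!
Equality of dimensions implies that the cycle class maps are isomorphisms.
-/

set_option autoImplicit false

open CategoryTheory AlgebraicGeometry TopologicalSpace

namespace Pool.Agent.Lib_helper66.OneP

open Pool.Agent.Lib_helper55.Beil

universe v w

variable {k : Type} [Field k] {E : Type} [Field E] {i : ℕ}

/-- The space of invariants of Frobenius in `H (2 * i) X`. -/
def invariants (T : Homology.{v} k E i) (X : Var k) : Submodule E (T.H (2 * i) X) :=
  LinearMap.ker (T.frob (2 * i) X - 1)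

lemma mem_invariants (T : Homology.{v} k E i) (X : Var k) (m : T.H (2 * i) X) :
    m ∈ invariants T X ↔ T.frob (2 * i) X m = m := by
  rw [invariants, LinearMap.mem_ker, LinearMap.sub_apply, Module.End.one_apply, sub_eq_zero]

/-- The dimension of the Chow group of `i`-dimensional cycles with coefficients in `E`. -/
noncomputable def chowDim (E : Type) [Field E] (i : ℕ) (X : Var k) : Cardinal :=
  Module.rank E (Chow E i X)

/-- The dimension of the space of invariants of Frobenius in `H (2 * i) X`. -/
noncomputable def invDim (T : Homology.{v} k E i) (X : Var k) : ℕ :=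
  Module.finrank E (invariants T X)

/-- A finitely generated Chow group vanishes on a small open subvariety. -/
lemma exists_small (V : Var k) (hint : IsIntegral V.X)
    (hd : (i : Cardinal) < V.dim (genericPoint V.X)) (hfin : Module.Finite E (Chow E i V)) :
    ∃ O : V.X.Opens, genericPoint V.X ∈ O ∧ ∀ (U : Var k) (j : OpenIn U V),
      Set.range j.g ⊆ O → ∀ c : Pts i U →₀ E, c ∈ ratZero E i U := by
  classical
  obtain ⟨s, hs⟩ := hfin.fg_top
  have hlift : ∀ x : s, ∃ c : Pts i V →₀ E, (ratZero E i V).mkQ c = x := fun x =>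
    (ratZero E i V).mkQ_surjective x
  choose c hc using hlift
  let B : Finset (Pts i V) := Finset.univ.biUnion (fun x : s => (c x).support)
  let A : Set V.X := Set.range (fun p : B => p.1.1)
  have hA : genericPoint V.X ∉ closure A := by
    rw [show A = ⋃ p : B, {p.1.1} by ext; simp [A, eq_comm], closure_iUnion_of_finite]
    intro hcon
    simp only [Set.mem_iUnion] at hcon
    obtain ⟨m, hm⟩ := hcon
    have h3 : m.1.1 ⤳ genericPoint V.X := specializes_iff_mem_closure.mpr hm
    have h4 := dim_le_of_specializes V h3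
    rw [m.1.2] at h4
    exact absurd hd (not_lt.mpr h4)
  refine ⟨⟨(closure A)ᶜ, isClosed_closure.isOpen_compl⟩, hA, ?_⟩
  intro U j hj d
  obtain ⟨d', rfl⟩ : ∃ d' : Pts i V →₀ E, resCyc j d' = d := by
    refine ⟨Finsupp.mapDomain (ptsMapO i j) d, ?_⟩
    ext u
    rw [resCyc_apply, Finsupp.mapDomain_apply (ptsMapO_injective i j)]
  have hres : ∀ x : s, resCyc j (c x) = 0 := by
    intro x
    ext u
    rw [resCyc_apply]
    by_contra h
    have h1 : ptsMapO i j u ∈ B :=
      Finset.mem_biUnion.mpr ⟨x, Finset.mem_univ _, Finsupp.mem_support_iff.mpr h⟩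
    have h2 : j.g u.1 ∈ A := ⟨⟨_, h1⟩, rfl⟩
    exact hj ⟨u.1, rfl⟩ (subset_closure h2)
  have h1 : (ratZero E i V).mkQ d' ∈ Submodule.span E (s : Set (Chow E i V)) := by
    rw [hs]
    trivial
  have key : ∀ y ∈ Submodule.span E (s : Set (Chow E i V)), ∃ e : Pts i V →₀ E,
      (ratZero E i V).mkQ e = y ∧ resCyc j e = 0 := by
    intro y hy
    induction hy using Submodule.span_induction with
    | mem x hx => exact ⟨c ⟨x, hx⟩, hc ⟨x, hx⟩, hres ⟨x, hx⟩⟩
    | zero => exact ⟨0, map_zero _, map_zero _⟩
    | add x y _ _ hx hy =>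
      obtain ⟨x', h1, h2⟩ := hx
      obtain ⟨y', h3, h4⟩ := hy
      exact ⟨x' + y', by rw [map_add, h1, h3], by rw [map_add, h2, h4, add_zero]⟩
    | smul r x _ hx =>
      obtain ⟨x', h1, h2⟩ := hx
      exact ⟨r • x', by rw [map_smul, h1], by rw [map_smul, h2, smul_zero]⟩
  obtain ⟨e, he, he0⟩ := key _ h1
  have h2 : d' - e ∈ ratZero E i V := by
    rw [← Submodule.Quotient.mk_eq_zero, ← Submodule.mkQ_apply, map_sub, he, sub_self]
  have h3 := resCyc_ratZero j _ h2
  rwa [map_sub, he0, sub_zero] at h3

lemma clMap_mem (T : Homology.{v} k E i) (X : Var k) (a : Chow E i X) :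
    T.clMap X a ∈ invariants T X := by
  rw [mem_invariants]
  exact T.frob_alg X _ (T.clMap_mem_alg X a)

/-- the cycle class map with values in the invariants -/
noncomputable def clInv (T : Homology.{v} k E i) (X : Var k) :
    Chow E i X →ₗ[E] invariants T X :=
  (T.clMap X).codRestrict _ (clMap_mem T X)

lemma clInv_surj (T : Homology.{v} k E i) (X : Var k) (h : T.Surj X) :
    Function.Surjective (clInv T X) := by
  intro m
  obtain ⟨a, ha⟩ := h m.1 ((mem_invariants T X m.1).mp m.2)
  exact ⟨a, Subtype.ext ha⟩

/-- bijectivity implies equality of dimensions -/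
lemma dim_eq (T : Homology.{v} k E i) (X : Var k) (hI : T.Inj X) (hS : T.Surj X) :
    chowDim E i X = (invDim T X : ℕ) := by
  have hinj : Function.Injective (clInv T X) := by
    intro a b h
    exact hI (congrArg Subtype.val h)
  have e : Chow E i X ≃ₗ[E] invariants T X :=
    LinearEquiv.ofBijective (clInv T X) ⟨hinj, clInv_surj T X hS⟩
  have h1 := e.lift_rank_eq
  have h2 : Module.rank E (invariants T X) = (Module.finrank E (invariants T X) : ℕ) :=
    (Module.finrank_eq_rank E (invariants T X)).symm
  rw [h2, Cardinal.lift_natCast] at h1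
  exact Cardinal.lift_eq_nat_iff.mp h1

/-- surjectivity and equality of dimensions imply injectivity -/
lemma inj_of_dim (T : Homology.{v} k E i) (X : Var k) (hS : T.Surj X)
    (hd : chowDim E i X ≤ (invDim T X : ℕ)) : T.Inj X := by
  have hfin : Module.Finite E (Chow E i X) := by
    rw [← Module.rank_lt_aleph0_iff]
    exact hd.trans_lt (Cardinal.natCast_lt_aleph0)
  have hle : Module.finrank E (Chow E i X) ≤ Module.finrank E (invariants T X) := by
    have h1 : ((Module.finrank E (Chow E i X) : ℕ) : Cardinal) ≤ (invDim T X : ℕ) := by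
      rw [Module.finrank_eq_rank]
      exact hd
    exact_mod_cast h1
  have hker : LinearMap.ker (clInv T X) = ⊥ := by
    have h1 := (clInv T X).finrank_range_add_finrank_ker
    rw [LinearMap.range_eq_top.mpr (clInv_surj T X hS), finrank_top] at h1
    have h2 : Module.finrank E (LinearMap.ker (clInv T X)) = 0 := by omega
    exact Submodule.finrank_eq_zero.mp h2
  intro a b h
  exact LinearMap.ker_eq_bot.mp hker (Subtype.ext h)

/-- Equality of dimensions for smooth affine integral varieties of dimension between `i + 1` and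
`2 * i` implies small surjectivity. -/
lemma smallSurj_of_dim (T : Homology.{v} k E i)
    (h : ∀ X : Var k, X.DimLE (2 * i) → chowDim E i X = (invDim T X : ℕ)) : T.SmallSurj := by
  intro U hint haff hsm h1 h2
  have hdim : U.DimLE (2 * i) := by
    intro x
    exact_mod_cast (dim_le_of_specializes U (genericPoint_specializes x)).trans h2
  have hfin : Module.Finite E (Chow E i U) := by
    rw [← Module.rank_lt_aleph0_iff]
    exact (h U hdim).trans_lt (Cardinal.natCast_lt_aleph0)
  obtain ⟨O, hO, hO2⟩ := exists_small U hint h1 hfin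
  have hop := (openVarIn U O).isOpen
  refine ⟨openVar U O, openVarIn U O, ⟨⟨genericPoint U.X, hO⟩⟩, ?_⟩
  have hdim' : (openVar U O).DimLE (2 * i) := by
    intro x
    rw [← dim_map (openVarIn U O).g (openVarIn U O).comm]
    exact hdim _
  have h3 := h _ hdim'
  have h4 : chowDim E i (openVar U O) = 0 := by
    rw [chowDim, rank_zero_iff]
    refine ⟨fun a b => ?_⟩
    obtain ⟨c, rfl⟩ := (ratZero E i (openVar U O)).mkQ_surjective a
    obtain ⟨d, rfl⟩ := (ratZero E i (openVar U O)).mkQ_surjective b
    have h5 := hO2 (openVar U O) (openVarIn U O) (by rw [range_openVarIn]) (c - d)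
    rw [← sub_eq_zero, ← map_sub, Submodule.mkQ_apply, Submodule.Quotient.mk_eq_zero]
    exact h5
  rw [h4] at h3
  have h5 : Module.finrank E (invariants T (openVar U O)) = 0 := by
    have : ((invDim T (openVar U O) : ℕ) : Cardinal) = 0 := h3.symm
    exact_mod_cast this
  intro m hm
  have h6 : m ∈ invariants T (openVar U O) := (mem_invariants _ _ _).mpr hm
  rw [Submodule.finrank_eq_zero.mp h5, Submodule.mem_bot] at h6
  exact ⟨0, by rw [map_zero, h6]⟩

/-- The numerical criterion. -/
theorem numerical [PerfectField k] (T : Homology.{v} k E i) :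
    (∀ X : Var k, T.Inj X ∧ T.Surj X) ↔
      ∀ X : Var k, X.DimLE (2 * i + 1) → chowDim E i X = (invDim T X : ℕ) := by
  constructor
  · intro h X _
    exact dim_eq T X (h X).1 (h X).2
  · intro h
    have hS := smallSurj_of_dim T (fun X hX => h X (fun x => (hX x).trans (by
      exact_mod_cast Nat.le_succ _)))
    have hsurj : ∀ X : Var k, T.Surj X := fun X => T.surj_of_good X (T.good_all hS X)
    have hinj : T.LowInj := fun X hX => inj_of_dim T X (hsurj X) (h X hX).le
    exact fun X => ⟨T.inj_all hinj X, hsurj X⟩

end Pool.Agent.Lib_helper66.OneP
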