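import Mathlib

/-!
Orders of vanishing and open immersions.
-/

set_option autoImplicit false

open CategoryTheory AlgebraicGeometry

namespace Pool.Agent.Lib_helper66.OneP

section Algebra

lemma ord_ringEquiv {R R' : Type*} [CommRing R] [CommRing R'] (e : R ≃+* R') (a : R) :
    Ring.ord R' (e a) = Ring.ord R a := by
  let : Algebra R R' := e.toRingHom.toAlgebra
  let f : R ≃ₐ[R] R' := AlgEquiv.ofRingEquiv (f := e) (fun r => rfl)
  have hI : Ideal.span {e a} = (Ideal.span {a}).map (f : R →+* R') := by
    rw [Ideal.map_span, Set.image_singleton]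
    rfl
  have h1 := (Ideal.quotientEquivAlg (Ideal.span {a}) (Ideal.span {e a}) f hI).toLinearEquiv.length_eq
  have h2 : Module.length R (R' ⧸ Ideal.span {e a}) = Module.length R' (R' ⧸ Ideal.span {e a}) :=
    Module.length_eq_of_surjective (S := R) (R := R') e.surjective
  rw [Ring.ord, Ring.ord, h1, h2]

lemma ordHom_ringEquiv {R R' : Type*} [CommRing R] [CommRing R'] [IsDomain R] [IsDomain R']
    (e : R ≃+* R') (a : R) :
    Ring.ordMonoidWithZeroHom R' (e a) = Ring.ordMonoidWithZeroHom R a := by
  by_cases ha0 : a = 0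
  · rw [ha0, map_zero, map_zero, map_zero]
  have ha : a ∈ nonZeroDivisors R := mem_nonZeroDivisors_of_ne_zero ha0
  have ha' : e a ∈ nonZeroDivisors R' := mem_nonZeroDivisors_of_ne_zero (fun h =>
    ha0 (e.injective (h.trans (map_zero e).symm)))
  rw [Ring.ordMonoidWithZeroHom_eq_ord ha, Ring.ordMonoidWithZeroHom_eq_ord ha', ord_ringEquiv]

lemma ordFrac_ringEquiv {R R' K K' : Type*} [CommRing R] [CommRing R'] [IsDomain R] [IsDomain R']
    [Field K] [Field K'] [Algebra R K] [Algebra R' K'] [IsFractionRing R K] [IsFractionRing R' K']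
    [IsNoetherianRing R] [IsNoetherianRing R'] [Ring.KrullDimLE 1 R] [Ring.KrullDimLE 1 R']
    (e : R ≃+* R') (eK : K →+* K') (h : ∀ r, eK (algebraMap R K r) = algebraMap R' K' (e r))
    (x : K) : Ring.ordFrac R' (eK x) = Ring.ordFrac R x := by
  obtain ⟨a, b, hb, rfl⟩ := IsFractionRing.div_surjective (A := R) x
  have hb0 : b ≠ 0 := nonZeroDivisors.ne_zero hb
  by_cases ha : a = 0
  · simp [ha]
  have ha' : e a ≠ 0 := fun h => ha (e.injective (h.trans (map_zero e).symm))
  have hb' : e b ≠ 0 := fun h => hb0 (e.injective (h.trans (map_zero e).symm))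
  rw [map_div₀, map_div₀, map_div₀, h, h, Ring.ordFrac_eq_ord _ ha, Ring.ordFrac_eq_ord _ hb0,
    Ring.ordFrac_eq_ord _ ha', Ring.ordFrac_eq_ord _ hb', ordHom_ringEquiv, ordHom_ringEquiv]

end Algebra

variable {A B : Scheme.{0}} (h : A ⟶ B) [IsOpenImmersion h] [IsIntegral A] [IsIntegral B]

/-- the isomorphism of function fields defined by an open immersion -/
noncomputable def funMap : B.functionField ⟶ A.functionField :=
  B.presheaf.stalkSpecializes (specializes_of_eq (genericPoint_eq_of_isOpenImmersion h)) ≫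
    h.stalkMap (genericPoint A)

instance : IsIso (funMap h) := by
  unfold funMap
  have : IsIso (B.presheaf.stalkSpecializes
      (specializes_of_eq (genericPoint_eq_of_isOpenImmersion h))) :=
    (B.presheaf.stalkCongr (.of_eq (genericPoint_eq_of_isOpenImmersion h).symm)).isIso_hom
  infer_instance

lemma funMap_compat (x : A) :
    B.presheaf.stalkSpecializes (genericPoint_specializes (h x)) ≫ funMap h =
      h.stalkMap x ≫ A.presheaf.stalkSpecializes (genericPoint_specializes x) := by
  unfold funMap
  rw [TopCat.Presheaf.stalkSpecializes_comp_assoc, Scheme.Hom.stalkSpecializes_stalkMap]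

lemma ord_funMap [IsLocallyNoetherian A] [IsLocallyNoetherian B] (φ : B.functionField) (x : A) :
    Scheme.ord (funMap h φ) x = Scheme.ord φ (h x) := by
  have hco : Order.coheight (h x) = Order.coheight x := coheight_eq_of_isOpenImmersion h
  by_cases hx : Order.coheight x = 1
  · have hx' : Order.coheight (h x) = 1 := hco.trans hx
    rw [Scheme.ord_eq_ordHom_of_coheight_eq_one hx, Scheme.ord_eq_ordHom_of_coheight_eq_one hx']
    have key : Scheme.ordHom x hx (funMap h φ) = Scheme.ordHom (h x) hx' φ := by
      have i1 : Ring.KrullDimLE 1 (A.presheaf.stalk x) := krullDimLE_of_coheight_le hx.le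
      have i2 : Ring.KrullDimLE 1 (B.presheaf.stalk (h x)) := krullDimLE_of_coheight_le hx'.le
      unfold Scheme.ordHom
      refine ordFrac_ringEquiv (asIso (h.stalkMap x)).commRingCatIsoToRingEquiv (funMap h).hom ?_ φ
      intro r
      exact congrArg (fun f => f.hom r) (funMap_compat h x)
    rw [key]
  · have hx' : Order.coheight (h x) ≠ 1 := fun h' => hx (hco.symm.trans h')
    rw [Scheme.ord_eq_zero_of_coheight_neq_one hx, Scheme.ord_eq_zero_of_coheight_neq_one hx']

end Pool.Agent.Lib_helper66.OneP
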