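import Pool.Agent.Lib_helper66.OneP.Defs
import Pool.Agent.Lib_helper55.Beil.Inj
import Pool.Agent.Lib_helper66.GenTate.Ell

/-!
Surjectivity for one prime implies surjectivity and semisimplicity for all primes.
-/

set_option autoImplicit false

open CategoryTheory AlgebraicGeometry Polynomial TopologicalSpace

namespace Pool.Agent.Lib_helper66.OneP

open Pool.Agent.Lib_helper55.Beil

universe v w

variable {k : Type} [Field k] {E : Type} [Field E] {i : ℕ}

/-- the bilinear map of a pairing -/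
def Pairing.bil {j : ℕ} {T : Homology.{v} k E i} {S : Homology.{v} k E j} {Y : Var k}
    (B : Pairing T S Y) : T.H (2 * i) Y →ₗ[E] S.H (2 * j) Y →ₗ[E] E :=
  LinearMap.mk₂ E B.app (fun a b c => (B.left c).map_add a b) (fun e a c => (B.left c).map_smul e a)
    (fun a b c => (B.right a).map_add b c) (fun e a c => (B.right a).map_smul e c)

/-- the linear map -/
def Lin.lin {T : Homology.{v} k E i} {n m : ℕ} {X Y : Var k} (f : Lin T n m X Y) :
    T.H n X →ₗ[E] T.H m Y := f

lemma isRealization [CharZero E] {j : ℕ} (N : Numbers k) (T : Homology.{v} k E i)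
    (S : Homology.{v} k E j) (Y : Var k) (B : Pairing T S Y)
    (h1 : B.Invariant) (h2 : B.Nondegenerate) (h3 : B.Intersections N)
    (hc : char T Y = (N.chi i Y).map (algebraMap ℚ E)) :
    GenTate.IsRealization E (N.num i j Y) (N.chi i Y) (T.frob (2 * i) Y) (S.frob (2 * j) Y) B.bil
      (T.cl Y) (S.cl Y) where
  inv := h1
  left := h2.1
  right := h2.2
  cl_inv := T.frob_cl Y
  cl'_inv := S.frob_cl Y
  num := h3
  char := hc

lemma invariant_iff (T : Homology.{v} k E i) (Y : Var k) (a : T.H (2 * i) Y) :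
    T.frob (2 * i) Y a = a → a ∈ T.gen Y := fun ha =>
  (mem_maxGen_iff _ _).mpr ⟨1, by
    rw [pow_one, LinearMap.sub_apply, Module.End.one_apply, ha, sub_self]⟩

lemma semisimple_of_good (T : Homology.{v} k E i) (Y : Var k) (h : T.gen Y ≤ T.alg Y) :
    ∀ a, T.frob (2 * i) Y (T.frob (2 * i) Y a - a) - (T.frob (2 * i) Y a - a) = 0 →
      T.frob (2 * i) Y a - a = 0 := by
  intro a ha
  rw [sub_eq_zero]
  exact T.semisimple_of_good Y h a (sub_eq_zero.mp ha)

lemma span_of_good (T : Homology.{v} k E i) (Y : Var k) (h : T.gen Y ≤ T.alg Y) :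
    ∀ a, T.frob (2 * i) Y a = a → a ∈ Submodule.span E (Set.range (T.cl Y)) := fun a ha =>
  h (invariant_iff T Y a ha)

/-- the smooth proper case -/
theorem smoothProper_main {E' : Type} [Field E'] [CharZero E] [CharZero E'] (N : Numbers k)
    (T : ∀ i, Homology.{v} k E i) (T' : ∀ i, Homology.{w} k E' i) (hT : Realizes N T)
    (hT' : Realizes N T') (i j : ℕ) (Y : Var k) (hY : Y.SmoothProper (i + j))
    (hi : (T i).gen Y ≤ (T i).alg Y) (hj : (T j).gen Y ≤ (T j).alg Y) :
    (T' i).gen Y ≤ (T' i).alg Y ∧ HomNum N (T' i) j Y := by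
  obtain ⟨B, hp1, hp2, hp3⟩ := hT.1 i j Y hY
  obtain ⟨B', hp1', hp2', hp3'⟩ := hT'.1 i j Y hY
  have hR := isRealization N (T i) (T j) Y B hp1 hp2 hp3 (hT.2 i _ Y hY)
  have hR' := isRealization N (T' i) (T' j) Y B' hp1' hp2' hp3' (hT'.2 i _ Y hY)
  obtain ⟨x, y, hxy⟩ := GenTate.exists_gram hR (span_of_good _ _ hi) (span_of_good _ _ hj)
    (semisimple_of_good _ _ hi) (semisimple_of_good _ _ hj)
  obtain ⟨h1, h2, h3, -⟩ := GenTate.of_gram hR' x y hxy
  constructor
  · intro m hm
    exact h1 m ((GenTate.mem_maxGen_iff _ h2 m).mp hm)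
  · intro c hc
    apply h3
    · rw [← Finsupp.range_linearCombination]
      exact LinearMap.mem_range_self _ _
    · intro z
      rw [← hc z, Finsupp.linearCombination_apply, Finsupp.sum, map_sum, LinearMap.sum_apply,
        Finsupp.sum]
      apply Finset.sum_congr rfl
      intro p _
      rw [map_smul, LinearMap.smul_apply, smul_eq_mul]
      congr 1
      exact hp3' p z

lemma complementary_of_open {V Y : Var k} (j : OpenIn V Y) :
    ∃ (Z : Var k) (a : ClosedIn Z Y), Complementary a j := by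
  have hj := j.isOpen
  refine ⟨closedVar Y (j.g.opensRange).compl, closedVarIn Y (j.g.opensRange).compl, ?_⟩
  rw [Complementary, range_closedVarIn]
  rfl

/-- restriction of algebraic classes -/
lemma res_alg (T : Homology.{v} k E i) {V Y : Var k} (j : OpenIn V Y) {m : T.H (2 * i) Y}
    (hm : m ∈ T.alg Y) : T.res (2 * i) j m ∈ T.alg V := by
  obtain ⟨Z, a, ha⟩ := complementary_of_open j
  have hj := j.isOpen
  induction hm using Submodule.span_induction with
  | mem x hx =>
    obtain ⟨p, rfl⟩ := hx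
    by_cases hp : p.1 ∈ Set.range j.g
    · obtain ⟨p, hpi⟩ := p
      obtain ⟨u, rfl⟩ := hp
      have hu : V.dim u = i := (dim_map j.g j.comm u).symm.trans hpi
      have h1 := T.res_cl j ⟨u, hu⟩ hpi
      rw [h1]
      exact Submodule.subset_span ⟨_, rfl⟩
    · have hp' : p.1 ∈ Set.range a.g := by
        rw [show Set.range a.g = (Set.range j.g)ᶜ from ha]
        exact hp
      rw [T.res_cl_eq_zero a j ha p hp']
      exact zero_mem _
  | zero => simp
  | add x y _ _ hx hy => rw [map_add]; exact add_mem hx hy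
  | smul a x _ hx => rw [map_smul]; exact Submodule.smul_mem _ _ hx

/-- open subvarieties of good varieties are good -/
lemma good_open (T : Homology.{v} k E i) (hi : 0 < i) (hW : Weights T) (hB : Boundary T)
    {V Y : Var k} (j : OpenIn V Y) (hY : T.gen Y ≤ T.alg Y) : T.gen V ≤ T.alg V := by
  obtain ⟨i, rfl⟩ : ∃ i', i = i' + 1 := ⟨i - 1, by omega⟩
  obtain ⟨Z, a, ha⟩ := complementary_of_open j
  obtain ⟨bd, h1, h2⟩ := hB (2 * i + 1) Z V Y a j ha
  intro m hm
  have h3 : bd.lin m = 0 := by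
    apply maxGen_eq_bot (T.frob (2 * i + 1) Z) (fun m hm => hW (2 * i + 1) (by ring) Z m hm)
    exact maxGen_map (T.frob (2 * i + 1 + 1) V) (T.frob (2 * i + 1) Z) bd.lin h1 hm
  obtain ⟨m₁, hm₁⟩ := (h2 m).mp h3
  have hm₁' : T.res (2 * (i + 1)) j m₁ = m := hm₁
  have hm' : T.res (2 * (i + 1)) j m₁ ∈ T.gen V := hm₁' ▸ hm
  obtain ⟨m₂, hm₂, h4⟩ := maxGen_lift (T.frob (2 * (i + 1)) Y) (T.frob (2 * (i + 1)) V)
    (T.res (2 * (i + 1)) j) (T.res_frob (2 * (i + 1)) j) hm'
  rw [← hm₁', ← h4]
  exact res_alg T j (hY hm₂)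

/-- quotients of good varieties by finite etale coverings are good -/
lemma good_trace (T : Homology.{v} k E i) (hTr : Trace T) {V U : Var k} (g : FinEt V U)
    (hV : T.gen V ≤ T.alg V) : T.gen U ≤ T.alg U := by
  obtain ⟨tr, h1, h2, h3⟩ := hTr V U g
  intro m hm
  obtain ⟨m₁, rfl⟩ := h1 m
  obtain ⟨m₂, hm₂, h4⟩ := maxGen_lift (T.frob (2 * i) V) (T.frob (2 * i) U) tr.lin h2 hm
  have h4' : tr.lin m₂ = tr.app m₁ := h4
  rw [← h4']
  have h5 : ∀ a ∈ T.alg V, tr.lin a ∈ T.alg U := by
    intro a ha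
    induction ha using Submodule.span_induction with
    | mem x hx =>
      obtain ⟨p, rfl⟩ := hx
      obtain ⟨u, e, hu⟩ := h3 p
      have hu' : tr.lin (T.cl V p) = e • T.cl U u := hu
      rw [hu']
      exact Submodule.smul_mem _ _ (Submodule.subset_span ⟨_, rfl⟩)
    | zero => rw [map_zero]; exact zero_mem _
    | add x y _ _ hx hy => rw [map_add]; exact add_mem hx hy
    | smul a x _ hx => rw [map_smul]; exact Submodule.smul_mem _ _ hx
  exact h5 _ (hV hm₂)

/-- If for one prime and all dimensions at most `i` the generalised eigenspaces are spanned by cycle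
classes, then small surjectivity holds for all primes in the dimension `i`. -/
theorem smallSurj_transfer {E' : Type} [Field E'] [CharZero E] [CharZero E']
    (N : Numbers k) (T : ∀ i, Homology.{v} k E i) (T' : ∀ i, Homology.{w} k E' i)
    (hT : Realizes N T) (hT' : Realizes N T') (hA : Alterations k) (i : ℕ)
    (hW : Weights (T' i)) (hB : Boundary (T' i)) (hTr : Trace (T' i))
    (hS : ∀ j ≤ i, ∀ X : Var k, (T j).gen X ≤ (T j).alg X) : (T' i).SmallSurj := by
  intro U hint haff hsm h1 h2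
  obtain ⟨d, hd⟩ := Cardinal.lt_aleph0.1 (h2.trans_lt (Cardinal.natCast_lt_aleph0))
  rw [hd, Nat.cast_lt] at h1
  rw [hd, Nat.cast_le] at h2
  obtain ⟨U', V, Y, jU, g, jV, hne, hY⟩ := hA U hint d hd
  obtain ⟨j, rfl⟩ : ∃ j, d = i + j := ⟨d - i, by omega⟩
  have hgood : (T' i).gen Y ≤ (T' i).alg Y :=
    (smoothProper_main N T T' hT hT' i j Y hY (hS i le_rfl Y) (hS j (by omega) Y)).1
  refine ⟨U', jU, hne, ?_⟩
  exact (T' i).surj_of_good U' (good_trace (T' i) hTr g
    (good_open (T' i) (by omega) hW hB jV hgood))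

end Pool.Agent.Lib_helper66.OneP
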