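import Pool.Agent.Lib_helper55.Beil.Frob

/-!
Further axioms of l-adic homology: weights, the equivariant boundary map, the trace of finite etale
morphisms, Poincare duality, and the data which do not depend on the prime l.
-/

set_option autoImplicit false

open CategoryTheory AlgebraicGeometry Polynomial

namespace Pool.Agent.Lib_helper66.OneP

open Pool.Agent.Lib_helper55.Beil

universe v w

variable {k : Type} [Field k] {E : Type} [Field E] {i j : ℕ}

/-- A finite etale surjective morphism over `k`. -/
structure FinEt (V U : Var k) where
  /-- the morphism -/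
  g : V.X ⟶ U.X
  comm : g ≫ U.f = V.f
  fin : IsFinite g
  etale : Etale g
  surj : Surjective g

/-- The theorem of de Jong on alterations (over a perfect field): every integral variety `U` of
dimension `d` has a nonempty open subvariety `U'` with a finite etale covering `V` which is an open
subvariety of a smooth proper integral variety `Y` of dimension `d`. -/
def Alterations (k : Type) [Field k] : Prop :=
  ∀ (U : Var k) (_ : IsIntegral U.X) (d : ℕ), U.dim (genericPoint U.X) = d →
    ∃ (U' V Y : Var k) (_ : OpenIn U' U) (_ : FinEt V U') (_ : OpenIn V Y),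
      Nonempty U'.X ∧ Y.SmoothProper d

/-- The theorem of Deligne on weights: `H_n(Zbar, Q_l(i))` has weights at least `2 * i - n`, so for
`n = 2 * i - 1` no nonzero class is invariant under Frobenius. -/
def Weights (T : Homology.{v} k E i) : Prop :=
  ∀ n : ℕ, n + 1 = 2 * i → ∀ (Z : Var k) (m : T.H n Z), T.F n Z m = m → m = 0

/-- The linear maps from `H n X` to `H m Y`. -/
def Lin (T : Homology.{v} k E i) (n m : ℕ) (X Y : Var k) : Type v := T.H n X →ₗ[E] T.H m Y

/-- The value of a linear map from `H n X` to `H m Y`. -/
def Lin.app {T : Homology.{v} k E i} {n m : ℕ} {X Y : Var k} (f : Lin T n m X Y) (a : T.H n X) :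
    T.H m Y := (id f : T.H n X →ₗ[E] T.H m Y) a

/-- The linear map `f` commutes with Frobenius. -/
def Lin.Equivariant {T : Homology.{v} k E i} {n m : ℕ} {X Y : Var k} (f : Lin T n m X Y) : Prop :=
  ∀ a, f.app (T.F n X a) = T.F m Y (f.app a)

/-- The part `H (n + 1) X → H (n + 1) U → H n Z` of the localisation sequence is exact, for some
boundary map `bd` which commutes with Frobenius. -/
def Boundary (T : Homology.{v} k E i) : Prop :=
  ∀ n (Z U X : Var k) (a : ClosedIn Z X) (j : OpenIn U X), Complementary a j →
    ∃ bd : Lin T (n + 1) n U Z, bd.Equivariant ∧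
      ∀ u, bd.app u = 0 ↔ ∃ x, T.R (n + 1) j x = u

/-- The linear map `f` maps the class of a point to a multiple of the class of a point. -/
def Lin.Classes {T : Homology.{v} k E i} {X Y : Var k} (f : Lin T (2 * i) (2 * i) X Y) : Prop :=
  ∀ x : Pts i X, ∃ (y : Pts i Y) (e : E), f.app (T.cl X x) = e • T.cl Y y

/-- The push-forward along a finite etale surjective morphism is surjective, commutes with
Frobenius and maps the class of a point to a multiple of the class of a point. -/
def Trace (T : Homology.{v} k E i) : Prop :=
  ∀ (V U : Var k), FinEt V U →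
    ∃ tr : Lin T (2 * i) (2 * i) V U, Function.Surjective tr.app ∧ tr.Equivariant ∧ tr.Classes

/-- The data which do not depend on the prime number l. -/
structure Numbers (k : Type) [Field k] where
  /-- the intersection number of an `i`-dimensional and a `j`-dimensional subvariety of `Y` -/
  num : ∀ (i j : ℕ) (Y : Var k), Pts i Y → Pts j Y → ℚ
  /-- the characteristic polynomial of Frobenius on `H_2i(Ybar, Q_l(i))` -/
  chi : ℕ → Var k → ℚ[X]

/-- The bilinear forms on `H_2i(Ybar, Q_l(i)) × H_2j(Ybar, Q_l(j))`. -/
structure Pairing (T : Homology.{v} k E i) (S : Homology.{v} k E j) (Y : Var k) where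
  /-- the value of the form -/
  app : T.H (2 * i) Y → S.H (2 * j) Y → E
  left : ∀ b, IsLinearMap E (fun a => app a b)
  right : ∀ a, IsLinearMap E (app a)

section

variable {T : Homology.{v} k E i} {S : Homology.{v} k E j} {Y : Var k}

/-- The bilinear form is invariant under Frobenius. -/
def Pairing.Invariant (B : Pairing T S Y) : Prop :=
  ∀ a b, B.app (T.F (2 * i) Y a) (S.F (2 * j) Y b) = B.app a b

/-- The bilinear form is nondegenerate. -/
def Pairing.Nondegenerate (B : Pairing T S Y) : Prop :=
  (∀ a, (∀ b, B.app a b = 0) → a = 0) ∧ ∀ b, (∀ a, B.app a b = 0) → b = 0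

/-- The values of the bilinear form on cycle classes are the intersection numbers. -/
def Pairing.Intersections (B : Pairing T S Y) (N : Numbers k) : Prop :=
  ∀ (x : Pts i Y) (y : Pts j Y), B.app (T.cl Y x) (S.cl Y y) = (N.num i j Y x y : E)

end

/-- The characteristic polynomial of Frobenius on `H_2i(Ybar, Q_l(i))`. -/
noncomputable def char (T : Homology.{v} k E i) (Y : Var k) : E[X] :=
  LinearMap.charpoly (T.frob (2 * i) Y)

/-- The theories `T i` have the intersection numbers and the characteristic polynomials `N` for
the smooth proper integral varieties. -/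
def Realizes [CharZero E] (N : Numbers k) (T : ∀ i, Homology.{v} k E i) : Prop :=
  (∀ (i j : ℕ) (Y : Var k), Y.SmoothProper (i + j) → ∃ B : Pairing (T i) (T j) Y,
    B.Invariant ∧ B.Nondegenerate ∧ B.Intersections N) ∧
  ∀ (i d : ℕ) (Y : Var k), Y.SmoothProper d → char (T i) Y = (N.chi i Y).map (algebraMap ℚ E)

/-- For `i`-dimensional cycles on `Y` numerical equivalence (with respect to the cycles of
dimension `j`) implies homological equivalence. -/
def HomNum (N : Numbers k) (T : Homology.{v} k E i) (j : ℕ) (Y : Var k) : Prop :=
  ∀ c : Pts i Y →₀ E, (∀ y : Pts j Y, c.sum (fun x e => e * (N.num i j Y x y : E)) = 0) →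
    Finsupp.linearCombination E (T.cl Y) c = 0

end Pool.Agent.Lib_helper66.OneP
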