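import Pool.Agent.Lib_helper55.Beil.Inj
import Pool.Agent.Lib_helper66.OneP.Defs

/-!
Further axioms of l-adic homology: purity, pull-back along finite etale morphisms, and the image of
the higher Chow groups `CH_i(X, 1)` in `H_(2i+1)(Xbar, Q_l(i))`.
-/

set_option autoImplicit false

open CategoryTheory AlgebraicGeometry

namespace Pool.Agent.Lib_helper66.OneP

open Pool.Agent.Lib_helper55.Beil

universe v w

variable {k : Type} [Field k] {E : Type} [Field E] {i : ℕ}

/-- The class of an `i`-dimensional cycle. -/
noncomputable def cls (T : Homology.{v} k E i) (X : Var k) (c : Pts i X →₀ E) : T.H (2 * i) X :=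
  Finsupp.linearCombination E (T.cl X) c

/-- The push-forward of a cycle along a closed immersion. -/
noncomputable def pushCyc {Z X : Var k} (a : ClosedIn Z X) (c : Pts i Z →₀ E) : Pts i X →₀ E :=
  Finsupp.mapDomain (ptsMap i a) c

/-- The theorem of Deligne: for a smooth proper variety `Y` the space `H_(2i+1)(Ybar, Q_l(i))` is
pure of weight `-1`, so no nonzero class is invariant under Frobenius. -/
def Purity (T : Homology.{v} k E i) : Prop :=
  ∀ (Y : Var k) (d : ℕ), Y.SmoothProper d →
    ∀ m : T.H (2 * i + 1) Y, T.F (2 * i + 1) Y m = m → m = 0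

/-- The pull-back `p` of cycles along a finite etale surjective morphism is compatible with the
pull-back `P` in homology, and a cycle is rationally equivalent to zero if its pull-back is (the
composition of pull-back and push-forward is multiplication by the degree). -/
def Pull (T : Homology.{v} k E i) : Prop :=
  ∀ (V U : Var k), FinEt V U →
    ∃ (p : (Pts i U →₀ E) → (Pts i V →₀ E)) (P : Lin T (2 * i) (2 * i) U V),
      (∀ c, cls T V (p c) = P.app (cls T U c)) ∧
      ∀ c, p c ∈ ratZero E i V → c ∈ ratZero E i U

/-- Subspaces `K X` of `H (2 * i + 1) X`; the example is the span of the image of the higher Chow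
group `CH_i(X, 1)` under the cycle class map. -/
def Kone (T : Homology.{v} k E i) : Type (max 1 v) :=
  ∀ X : Var k, Submodule E (T.H (2 * i + 1) X)

/-- The class `u` is in the subspace `K X`. -/
def Kone.Mem {T : Homology.{v} k E i} (K : Kone T) (X : Var k) (u : T.H (2 * i + 1) X) : Prop :=
  u ∈ (K X : Submodule E (T.H (2 * i + 1) X))

/-- The classes in `K X` are invariant under Frobenius. -/
def Kone.Invariant {T : Homology.{v} k E i} (K : Kone T) : Prop :=
  ∀ (X : Var k) (u : T.H (2 * i + 1) X), K.Mem X u → T.F (2 * i + 1) X u = u

/-- The cycle `c` on `Z` becomes rationally equivalent to zero on `X`. -/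
def Dies {Z X : Var k} (a : ClosedIn Z X) (c : Pts i Z →₀ E) : Prop :=
  pushCyc a c ∈ ratZero E i X

/-- The map `bd` is compatible with the localisation sequence `CH_i(U, 1) → CH_i(Z) → CH_i(X)`:
the image of `K U` consists of the classes of the cycles on `Z` whose push-forward to `X` is
rationally equivalent to zero. -/
def Kone.Compatible {T : Homology.{v} k E i} (K : Kone T) {Z U X : Var k} (a : ClosedIn Z X)
    (bd : Lin T (2 * i + 1) (2 * i) U Z) : Prop :=
  (∀ u, K.Mem U u → ∃ c, Dies a c ∧ bd.app u = cls T Z c) ∧
    ∀ c, Dies a c → ∃ u, K.Mem U u ∧ bd.app u = cls T Z c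

/-- The part `H (2 * i + 1) X → H (2 * i + 1) U → H (2 * i) Z → H (2 * i) X` of the localisation
sequence is exact, for some boundary map `bd` which commutes with Frobenius and is compatible with
the localisation sequence of Chow groups. -/
def Kone.Localisation {T : Homology.{v} k E i} (K : Kone T) : Prop :=
  ∀ (Z U X : Var k) (a : ClosedIn Z X) (j : OpenIn U X), Complementary a j →
    ∃ bd : Lin T (2 * i + 1) (2 * i) U Z, bd.Equivariant ∧
      (∀ u, bd.app u = 0 ↔ ∃ x, T.R (2 * i + 1) j x = u) ∧
      (∀ z, T.P (2 * i) a z = 0 ↔ ∃ u, bd.app u = z) ∧ K.Compatible a bd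

/-- The push-forward along a finite etale surjective morphism `V → U` on `H (2 * i + 1)` is
surjective, commutes with Frobenius and maps `K V` into `K U`. -/
def Kone.Trace {T : Homology.{v} k E i} (K : Kone T) : Prop :=
  ∀ (V U : Var k), FinEt V U →
    ∃ tr : Lin T (2 * i + 1) (2 * i + 1) V U, Function.Surjective tr.app ∧ tr.Equivariant ∧
      ∀ u, K.Mem V u → K.Mem U (tr.app u)

/-- The further published properties of `l`-adic homology used here. -/
structure Published (T : Homology.{v} k E i) : Prop where
  weights : Weights T
  purity : Purity T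
  boundary : Boundary T
  trace : Trace T
  pull : Pull T
  kone : ∃ K : Kone T, K.Invariant ∧ K.Localisation ∧ K.Trace

end Pool.Agent.Lib_helper66.OneP
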